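import Mathlib
import Pool.Agent.helper96.Build7

/-!
# The log-Sobolev constant of a Gaussian tilt is not controlled by that of the measure

We refute: there is an absolute constant `C` such that, for every logconcave probability measure
`π` on `ℝⁿ` with compact support and every `h > 0`, `C_LSI(π γ_h) ≤ C * C_LSI(π)`.
The counterexamples are moreover centred and isotropic.

Idea. On `{(x, y) : 0 ≤ x ≤ L, |y_i| ≤ 1 - a x}` in `ℝ^{1+n}` take the density `e^{(n a - 1) x}`
with `a = 1 / (L √(2n))`.  The first marginal is `≈ e^{-x}` on `[0, L]`, whose log-Sobolev constant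
is of order `L`; given `x` the vector `y` is uniform on a cube of slowly varying size, so
tensorisation gives `C_LSI(π) ≲ L`.  Since `|y|²` concentrates around `n (1 - a x)² / 3`, tilting by
`e^{-|y|²/(2h)}` with `h ≍ √n / L` multiplies the first marginal by `≈ e^{x}`, making it nearly
uniform on `[0, L]`, so `C_LSI(π γ_h) ≳ L²`.
-/

open MeasureTheory
open scoped ENNReal Pointwise ContDiff

namespace Pool.Agent.Results.MP_13a01f_pr.GaussianTilt

/-- `ℝⁿ` with the Euclidean norm. -/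
abbrev E (n : ℕ) : Type := EuclideanSpace ℝ (Fin n)

/-- A Borel measure `μ` on `ℝⁿ` is logconcave (Borell) if
`μ(t A + (1 - t) B) ≥ μ(A)^t μ(B)^(1 - t)` for all nonempty compact `A`, `B` and `t ∈ [0, 1]`. -/
def Logconcave {n : ℕ} (μ : Measure (E n)) : Prop :=
  ∀ A B : Set (E n), IsCompact A → IsCompact B → A.Nonempty → B.Nonempty →
    ∀ t : ℝ, 0 ≤ t → t ≤ 1 → μ A ^ t * μ B ^ (1 - t) ≤ μ (t • A + (1 - t) • B)

/-- The entropy `Ent_μ[g] = E_μ[g log g] - E_μ[g] log E_μ[g]`. -/
noncomputable def Ent {n : ℕ} (μ : Measure (E n)) (g : E n → ℝ) : ℝ :=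
  ∫ x, g x * Real.log (g x) ∂μ - (∫ x, g x ∂μ) * Real.log (∫ x, g x ∂μ)

/-- The log-Sobolev constant of `μ`: the smallest `C ∈ [0, ∞]` such that
`Ent_μ[f²] ≤ C * E_μ ‖∇ f‖²` for all smooth `f : ℝⁿ → ℝ`. -/
noncomputable def lsiConst {n : ℕ} (μ : Measure (E n)) : ℝ≥0∞ :=
  sInf {C : ℝ≥0∞ | ∀ f : E n → ℝ, ContDiff ℝ ∞ f →
    ENNReal.ofReal (Ent μ fun x => f x ^ 2) ≤ C * ∫⁻ x, ENNReal.ofReal (‖gradient f x‖ ^ 2) ∂μ}

/-- The Gaussian tilt `μ γ_h`: the probability measure with density proportional to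
`exp (-‖x‖² / (2 h))` with respect to `μ`. -/
noncomputable def gaussianTilt {n : ℕ} (μ : Measure (E n)) (h : ℝ) : Measure (E n) :=
  μ.tilted fun x => -‖x‖ ^ 2 / (2 * h)

theorem sq_bound {v A : ℝ} (hv : 0 ≤ v) (hA : 0 < A) :
    (v - A) ^ 2 ≤ v ^ 2 * Real.log (v ^ 2) - v ^ 2 * Real.log (A ^ 2) - v ^ 2 + A ^ 2 := by
  rcases hv.eq_or_lt with rfl | hv
  · simp
  · have h1 : Real.log (A / v) ≤ A / v - 1 := Real.log_le_sub_one_of_pos (by positivity)
    rw [Real.log_div hA.ne' hv.ne'] at h1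
    have h2 : v ^ 2 * (2 * (Real.log v - Real.log A)) ≥ v ^ 2 * (2 * (1 - A / v)) := by
      have : 1 - A / v ≤ Real.log v - Real.log A := by linarith
      gcongr
    have h3 : v ^ 2 * (2 * (1 - A / v)) = 2 * v ^ 2 - 2 * v * A := by field_simp
    have h4 : Real.log (v ^ 2) = 2 * Real.log v := by rw [Real.log_pow]; norm_num
    have h5 : Real.log (A ^ 2) = 2 * Real.log A := by rw [Real.log_pow]; norm_num
    rw [h4, h5]
    nlinarith

open helper96 in
theorem lsiConst_le {L : ℝ} {N : ℕ} (hL : 1 ≤ L) (hN : 36 * L ^ 3 ≤ N) :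
    lsiConst (pim L N) ≤ ENNReal.ofReal (21000 * L) := by
  have hprob := isProb_pim hL hN
  obtain ⟨K, hK, hK0⟩ := compact_pim hL hN
  have hKae : ∀ᵐ x ∂(pim L N), x ∈ K := by
    rw [ae_iff]; exact hK0
  apply sInf_le
  intro f hf
  have hf1 : ContDiff ℝ 1 f := hf.of_le (by exact_mod_cast le_top)
  have hgc : Continuous (gradient f) := by
    unfold gradient
    exact (InnerProductSpace.toDual ℝ _).symm.continuous.comp (hf1.continuous_fderiv one_ne_zero)
  have hint : Integrable (fun x => ‖gradient f x‖ ^ 2) (pim L N) :=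
    integrable_of_compact hK hKae (hgc.norm.pow 2)
  rw [← ofReal_integral_eq_lintegral_ofReal hint (Filter.Eventually.of_forall fun x => sq_nonneg _),
    ← ENNReal.ofReal_mul (by positivity)]
  exact ENNReal.ofReal_le_ofReal (lsi_pim hL hN hf1)

open helper96 in
theorem le_lsiConst {L : ℝ} {N : ℕ} (hL : 1 ≤ L) (hN : 36 * L ^ 3 ≤ N) :
    ENNReal.ofReal (L ^ 2 / 6000) ≤ lsiConst (gaussianTilt (pim L N) (hh L N)) := by
  have hprob := isProb_pim hL hN
  obtain ⟨K, hK, hK0⟩ := compact_pim hL hN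
  have hKae : ∀ᵐ x ∂(pim L N), x ∈ K := by
    rw [ae_iff]; exact hK0
  have hexp : Integrable (fun x => Real.exp (-‖x‖ ^ 2 / (2 * hh L N))) (pim L N) :=
    integrable_of_compact hK hKae (by fun_prop)
  set μ := gaussianTilt (pim L N) (hh L N) with hμ
  have hprob' : IsProbabilityMeasure μ := isProbabilityMeasure_tilted hexp
  have hac : μ ≪ pim L N := tilted_absolutelyContinuous _ _
  have hKae' : ∀ᵐ x ∂μ, x ∈ K := hac.ae_le hKae
  -- the test function
  set c := al L N * mm L N with hc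
  set f : E (2 * N ^ 2 + 1) → ℝ := fun w => w 0 + c with hf
  have hfs : ContDiff ℝ ∞ f := by
    unfold f
    exact ((EuclideanSpace.proj (𝕜 := ℝ) (0 : Fin (2 * N ^ 2 + 1))).contDiff).add contDiff_const
  have hfc : Continuous f := hfs.continuous
  have hgrad : ∀ x, gradient f x = EuclideanSpace.single 0 (1 : ℝ) := by
    intro x
    have h1 : HasFDerivAt f (EuclideanSpace.proj (𝕜 := ℝ) (0 : Fin (2 * N ^ 2 + 1)) :
        E (2 * N ^ 2 + 1) →L[ℝ] ℝ) x :=
      ((EuclideanSpace.proj (𝕜 := ℝ) (0 : Fin (2 * N ^ 2 + 1))).hasFDerivAt).add_const c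
    unfold gradient
    rw [h1.fderiv, LinearIsometryEquiv.symm_apply_eq]
    ext v
    simp [InnerProductSpace.toDual_apply_apply, EuclideanSpace.inner_single_left]
  have hf0' : ∀ᵐ w ∂(pim L N), 0 ≤ f w := by
    have hae := Pmeas_ae (n := 2 * N ^ 2) (β := bb L N) (by linarith : 0 < L) (aa_pos hL hN).le
      (aa_L_lt_one hL hN)
    unfold pim piM
    rw [ae_map_iff continuous_Phi.measurable.aemeasurable
      (measurableSet_le measurable_const hfc.measurable)]
    filter_upwards [hae] with q hq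
    have e : f (Phi (2 * N ^ 2) (aa L N) (al L N) (ka L N) (mm L N) q) = al L N * q.1 := by
      simp only [hf, hc, Phi]
      simp
      ring
    rw [e]
    exact mul_nonneg (al_pos hL hN).le hq.1.1
  have hf0 : ∀ᵐ w ∂μ, 0 ≤ f w := hac.ae_le hf0'
  have hI2 : Integrable (fun w => f w ^ 2) μ := integrable_of_compact hK hKae' (hfc.pow 2)
  have hIl : Integrable (fun w => f w ^ 2 * Real.log (f w ^ 2)) μ :=
    integrable_of_compact hK hKae' (Real.continuous_mul_log.comp (hfc.pow 2))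
  have hvar : ∀ A : ℝ, L ^ 2 / 6000 ≤ ∫ w, (f w - A) ^ 2 ∂μ := fun A => tilt_pim hL hN A
  have hm : 0 < ∫ w, f w ^ 2 ∂μ := by
    have := hvar 0
    simp only [sub_zero] at this
    have : 0 < L ^ 2 / 6000 := by positivity
    linarith
  set A := Real.sqrt (∫ w, f w ^ 2 ∂μ) with hA
  have hA0 : 0 < A := Real.sqrt_pos.mpr hm
  have hA2 : A ^ 2 = ∫ w, f w ^ 2 ∂μ := Real.sq_sqrt hm.le
  have hent : ∫ w, (f w - A) ^ 2 ∂μ ≤ Ent μ fun w => f w ^ 2 := by
    have e1 : Ent μ (fun w => f w ^ 2) = ∫ w, (f w ^ 2 * Real.log (f w ^ 2) -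
        f w ^ 2 * Real.log (A ^ 2) - f w ^ 2 + A ^ 2) ∂μ := by
      rw [integral_add, integral_sub, integral_sub, integral_mul_const]
      · unfold Ent
        simp only [integral_const, probReal_univ, one_smul]
        rw [hA2]
        ring
      · exact hIl
      · exact hI2.mul_const _
      · exact hIl.sub (hI2.mul_const _)
      · exact hI2
      · exact (hIl.sub (hI2.mul_const _)).sub hI2
      · exact integrable_const _
    rw [e1]
    apply integral_mono_ae
    · exact integrable_of_compact hK hKae' (by fun_prop)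
    · exact ((hIl.sub (hI2.mul_const _)).sub hI2).add (integrable_const _)
    · filter_upwards [hf0] with w hw
      exact sq_bound hw hA0
  apply le_sInf
  intro C0 hC0
  have h := hC0 f hfs
  have hone : ∫⁻ x, ENNReal.ofReal (‖gradient f x‖ ^ 2) ∂μ = 1 := by
    simp [hgrad]
  rw [hone, mul_one] at h
  exact (ENNReal.ofReal_le_ofReal ((hvar A).trans hent)).trans h

/-- **Negative answer.** For every constant `C` there are `n ≥ 1`, a logconcave probability measure
`μ` on `ℝⁿ` with compact support, even centred and isotropic, and `h > 0`, with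
`C_LSI(μ γ_h) > C * C_LSI(μ)`. -/
theorem result (C : ℝ) : ∃ n : ℕ, 1 ≤ n ∧ ∃ μ : Measure (E n), IsProbabilityMeasure μ ∧
    Logconcave μ ∧ (∃ K : Set (E n), IsCompact K ∧ μ Kᶜ = 0) ∧
    (∀ i, ∫ x, x i ∂μ = 0) ∧ (∀ i j, ∫ x, x i * x j ∂μ = if i = j then 1 else 0) ∧
    ∃ h : ℝ, 0 < h ∧ ENNReal.ofReal C * lsiConst μ < lsiConst (gaussianTilt μ h) := by
  set L : ℝ := 126000000 * (|C| + 1) with hLdef
  have hC : 0 ≤ |C| := abs_nonneg C
  have hL : 1 ≤ L := by rw [hLdef]; linarith
  obtain ⟨N, hN⟩ := exists_nat_ge (36 * L ^ 3)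
  refine ⟨2 * N ^ 2 + 1, by omega, helper96.pim L N, helper96.isProb_pim hL hN,
    helper96.isLogconcave_pim hL hN, helper96.compact_pim hL hN, helper96.centred_pim hL hN,
    helper96.isotropic_pim hL hN, helper96.hh L N, helper96.hh_pos hL hN, ?_⟩
  calc ENNReal.ofReal C * lsiConst (helper96.pim L N)
      ≤ ENNReal.ofReal |C| * ENNReal.ofReal (21000 * L) :=
        mul_le_mul' (ENNReal.ofReal_le_ofReal (le_abs_self C)) (lsiConst_le hL hN)
    _ = ENNReal.ofReal (|C| * (21000 * L)) := by rw [ENNReal.ofReal_mul hC]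
    _ < ENNReal.ofReal (L ^ 2 / 6000) := by
        apply (ENNReal.ofReal_lt_ofReal_iff (by positivity)).mpr
        rw [lt_div_iff₀ (by norm_num)]
        have : |C| * 126000000 < L := by rw [hLdef]; linarith
        nlinarith
    _ ≤ _ := le_lsiConst hL hN

end Pool.Agent.Results.MP_13a01f_pr.GaussianTilt
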